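import Mathlib
import Pool.Agent.H16.Count

namespace Pool.Agent.Results.MP_7e34bc_co.ExactWeight

open Finset

/-- the vertex of the cube `{0,1}^n` whose set of ones is `A` -/
def vec {n : ℕ} (A : Finset (Fin n)) : Fin n → ℝ := fun i => if i ∈ A then 1 else 0

/-- no unit vector `e_i` lies in the real span of the vertices of `S` -/
def UnitFree {n : ℕ} (S : Finset (Finset (Fin n))) : Prop :=
  ∀ i : Fin n, (Pi.single i 1 : Fin n → ℝ) ∉ Submodule.span ℝ (vec '' (S : Set (Finset (Fin n))))

theorem vec_eq {n : ℕ} (A : Finset (Fin n)) : vec A = ∑ i ∈ A, (Pi.single i 1 : Fin n → ℝ) := by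
  ext j
  simp [vec, Finset.sum_apply, Pi.single_apply]

theorem exists_x {n : ℕ} (S : Finset (Finset (Fin n))) (h : UnitFree S) :
    ∃ x : Fin n → ℝ, (∀ i, x i ≠ 0) ∧ ∀ A ∈ S, ∑ i ∈ A, x i = 0 := by
  obtain ⟨f, hf⟩ := Module.exists_dual_forall_apply_ne_zero (K := ℝ)
    (fun i : Fin n => (Submodule.span ℝ (vec '' (S : Set (Finset (Fin n))))).mkQ (Pi.single i 1))
    (fun i => by simpa using h i)
  refine ⟨_, hf, fun A hA => ?_⟩
  rw [← map_sum, ← map_sum, ← vec_eq, Submodule.mkQ_apply,
    (Submodule.Quotient.mk_eq_zero _).2 (Submodule.subset_span (Set.mem_image_of_mem vec (mem_coe.2 hA))), map_zero]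

theorem split {n : ℕ} (p : Fin n → Prop) [DecidablePred p] (x : Fin n → ℝ) (A : Finset (Fin n)) :
    ∑ i ∈ A, x i = ∑ i ∈ A.subtype p, x i + ∑ i ∈ A.subtype (fun i => ¬ p i), x i := by
  rw [sum_subtype_eq_sum_filter, sum_subtype_eq_sum_filter, sum_filter_add_sum_filter_not]

theorem card_split {n : ℕ} (p : Fin n → Prop) [DecidablePred p] (A : Finset (Fin n)) :
    (A.subtype p).card + (A.subtype (fun i => ¬ p i)).card = A.card := by
  rw [card_subtype, card_subtype, card_filter_add_card_filter_not]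

theorem eq_of_chain {n : ℕ} (x : Fin n → ℝ) (hx : ∀ i, x i ≠ 0) (A B : Finset (Fin n))
    (hA : ∑ i ∈ A, x i = 0) (hB : ∑ i ∈ B, x i = 0)
    (h1 : A.subtype (fun i => 0 < x i) ⊆ B.subtype (fun i => 0 < x i))
    (h2 : B.subtype (fun i => ¬ 0 < x i) ⊆ A.subtype (fun i => ¬ 0 < x i)) : A = B := by
  rw [split (fun i => 0 < x i)] at hA hB
  have neg : ∀ i : {i // ¬ 0 < x i}, x i < 0 := fun i => lt_of_le_of_ne (not_lt.1 i.2) (hx i)
  have e1 := sum_sdiff (f := fun i : {i // 0 < x i} => x i) h1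
  have e2 := sum_sdiff (f := fun i : {i // ¬ 0 < x i} => x i) h2
  have p1 : 0 ≤ ∑ i ∈ B.subtype (fun i => 0 < x i) \ A.subtype (fun i => 0 < x i), x i :=
    sum_nonneg fun i _ => i.2.le
  have p2 : ∑ i ∈ A.subtype (fun i => ¬ 0 < x i) \ B.subtype (fun i => ¬ 0 < x i), x i ≤ 0 :=
    sum_nonpos fun i _ => (neg i).le
  have q1 := (sum_eq_zero_iff_of_nonneg (fun (i : {i // 0 < x i}) _ => i.2.le)).1
    (le_antisymm (by linarith) p1)
  have q2 := (sum_eq_zero_iff_of_nonpos (fun (i : {i // ¬ 0 < x i}) _ => (neg i).le)).1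
    (le_antisymm p2 (by linarith))
  ext i
  by_cases hi : 0 < x i
  · constructor
    · intro h
      exact mem_subtype.1 (h1 ((mem_subtype (a := ⟨i, hi⟩)).2 h))
    · intro h
      by_contra hn
      exact hx i (q1 ⟨i, hi⟩ (mem_sdiff.2 ⟨mem_subtype.2 h, fun h' => hn (mem_subtype.1 h')⟩))
  · constructor
    · intro h
      by_contra hn
      exact hx i (q2 ⟨i, hi⟩ (mem_sdiff.2 ⟨mem_subtype.2 h, fun h' => hn (mem_subtype.1 h')⟩))
    · intro h
      exact mem_subtype.1 (h2 ((mem_subtype (a := ⟨i, hi⟩)).2 h))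

theorem upper (n k : ℕ) (hk : 1 ≤ k) (S : Finset (Finset (Fin n))) (hS : ∀ A ∈ S, A.card = k)
    (h : UnitFree S) :
    S.card ≤ (range (n + 1) ×ˢ Ioo 0 k).sup
      (fun p => p.1.choose p.2 * (n - p.1).choose (k - p.2)) := by
  obtain ⟨x, hx, h0⟩ := exists_x S h
  obtain ⟨M, hM⟩ : ∃ M, M = (range (n + 1) ×ˢ Ioo 0 k).sup
      (fun p => p.1.choose p.2 * (n - p.1).choose (k - p.2)) := ⟨_, rfl⟩
  rw [← hM]
  obtain ⟨n1, hn1⟩ : ∃ n1, n1 = Fintype.card {i // 0 < x i} := ⟨_, rfl⟩
  obtain ⟨n2, hn2⟩ : ∃ n2, n2 = Fintype.card {i // ¬ 0 < x i} := ⟨_, rfl⟩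
  have hn : n1 + n2 = n := by
    have := Fintype.card_subtype_le (fun i => 0 < x i)
    rw [hn2, Fintype.card_subtype_compl, ← hn1]
    rw [← hn1] at this
    simp only [Fintype.card_fin] at this ⊢
    omega
  let T : Finset (Fin n) → Finset (Numbering {i // 0 < x i} × Numbering {i // ¬ 0 < x i}) :=
    fun A => Numbering.prefixed (A.subtype _) ×ˢ Numbering.prefixed (A.subtype _)
  have hdisj : (S : Set (Finset (Fin n))).PairwiseDisjoint T := by
    intro A hA B hB hAB
    rw [Function.onFun, disjoint_left]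
    intro f h1 h2
    simp only [T, mem_product, Numbering.mem_prefixed] at h1 h2
    have c1 := card_split (fun i => 0 < x i) A
    have c2 := card_split (fun i => 0 < x i) B
    rw [hS A hA] at c1
    rw [hS B hB] at c2
    rcases le_total (A.subtype (fun i => 0 < x i)).card (B.subtype (fun i => 0 < x i)).card with
      hc | hc
    · exact hAB (eq_of_chain x hx A B (h0 A hA) (h0 B hB) (h1.1.subset_of_card_le_card h2.1 hc)
        (h2.2.subset_of_card_le_card h1.2 (by omega)))
    · exact hAB (eq_of_chain x hx B A (h0 B hB) (h0 A hA) (h2.1.subset_of_card_le_card h1.1 hc)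
        (h1.2.subset_of_card_le_card h2.2 (by omega))).symm
  have htot : ∑ A ∈ S, (T A).card ≤ n1.factorial * n2.factorial := by
    rw [← card_biUnion hdisj]
    refine (card_le_univ _).trans (le_of_eq ?_)
    rw [Fintype.card_prod, Fintype.card_numbering, Fintype.card_numbering, hn1, hn2]
  have hone : ∀ A ∈ S, n1.factorial * n2.factorial ≤ M * (T A).card := by
    intro A hA
    have c1 := card_split (fun i => 0 < x i) A
    rw [hS A hA] at c1
    have l1 := card_le_univ (A.subtype (fun i => 0 < x i))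
    have l2 := card_le_univ (A.subtype (fun i => ¬ 0 < x i))
    have z := h0 A hA
    rw [split (fun i => 0 < x i)] at z
    have neg : ∀ i : {i // ¬ 0 < x i}, x i < 0 := fun i => lt_of_le_of_ne (not_lt.1 i.2) (hx i)
    have a1 : 0 < (A.subtype (fun i => 0 < x i)).card := by
      by_contra hc
      have e : A.subtype (fun i => 0 < x i) = ∅ := card_eq_zero.1 (by omega)
      rw [e, sum_empty, zero_add] at z
      exact absurd z (sum_neg (fun i _ => neg i) (card_pos.1 (by omega))).ne
    have a2 : 0 < (A.subtype (fun i => ¬ 0 < x i)).card := by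
      by_contra hc
      have e : A.subtype (fun i => ¬ 0 < x i) = ∅ := card_eq_zero.1 (by omega)
      rw [e, sum_empty, add_zero] at z
      exact absurd z (sum_pos (fun i _ => i.2) (card_pos.1 (by omega))).ne'
    simp only [T, card_product, Numbering.card_prefixed]
    rw [← hn1] at l1
    rw [← hn2] at l2
    rw [← hn1, ← hn2]
    generalize (A.subtype (fun i => 0 < x i)).card = a at *
    generalize (A.subtype (fun i => ¬ 0 < x i)).card = b at *
    have hle : n1.choose a * n2.choose b ≤ M := by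
      rw [hM]
      have := le_sup (s := range (n + 1) ×ˢ Ioo 0 k)
        (f := fun p => p.1.choose p.2 * (n - p.1).choose (k - p.2)) (b := (n1, a))
        (by simp only [mem_product, mem_range, mem_Ioo]; omega)
      simp only at this
      rwa [show n - n1 = n2 by omega, show k - a = b by omega] at this
    rw [← Nat.choose_mul_factorial_mul_factorial l1, ← Nat.choose_mul_factorial_mul_factorial l2]
    refine le_trans (le_of_eq ?_) (Nat.mul_le_mul_right _ hle)
    ring
  have h3 := sum_le_sum hone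
  rw [sum_const, smul_eq_mul, ← mul_sum] at h3
  exact Nat.le_of_mul_le_mul_right (h3.trans (Nat.mul_le_mul_left _ htot)) (by positivity)

theorem lower (n k n1 k1 : ℕ) (h1 : n1 ≤ n) (h2 : 0 < k1) (h3 : k1 < k) :
    ∃ S : Finset (Finset (Fin n)), (∀ A ∈ S, A.card = k) ∧ UnitFree S ∧
      S.card = n1.choose k1 * (n - n1).choose (k - k1) := by
  obtain ⟨X, -, hX⟩ := exists_subset_card_eq (s := (univ : Finset (Fin n))) (n := n1)
    (by simpa using h1)
  refine ⟨(powersetCard k (X ∪ Xᶜ)).filter (fun T => (T ∩ X).card = k1), ?_, ?_, ?_⟩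
  · intro A hA
    exact (mem_powersetCard.1 (mem_filter.1 hA).1).2
  · intro i hi
    let f : (Fin n → ℝ) →ₗ[ℝ] ℝ :=
      ∑ j, (if j ∈ X then ((k : ℝ) - k1) else -(k1 : ℝ)) • LinearMap.proj j
    have hf : ∀ j, f (Pi.single j 1) = if j ∈ X then ((k : ℝ) - k1) else -(k1 : ℝ) := by
      intro j
      simp only [f, LinearMap.sum_apply, LinearMap.smul_apply, LinearMap.proj_apply, smul_eq_mul]
      rw [sum_eq_single j (fun l _ hl => by rw [Pi.single_eq_of_ne hl, mul_zero]) (by simp),
        Pi.single_eq_same, mul_one]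
    have hk : Submodule.span ℝ (vec '' ((powersetCard k (X ∪ Xᶜ)).filter
        (fun T => (T ∩ X).card = k1) : Finset (Finset (Fin n)))) ≤ LinearMap.ker f := by
      rw [Submodule.span_le]
      rintro _ ⟨A, hA, rfl⟩
      obtain ⟨hA1, hA2⟩ := mem_filter.1 (mem_coe.1 hA)
      have hA3 := (mem_powersetCard.1 hA1).2
      have hA4 := card_filter_add_card_filter_not (s := A) (fun j => j ∈ X)
      rw [filter_mem_eq_inter, hA2, hA3] at hA4
      have hA5 : ((A.filter (fun j => ¬ j ∈ X)).card : ℝ) = k - k1 := by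
        rw [← hA4]; push_cast; ring
      rw [SetLike.mem_coe, LinearMap.mem_ker, vec_eq, map_sum]
      simp only [hf]
      rw [sum_ite, sum_const, sum_const, filter_mem_eq_inter, hA2, nsmul_eq_mul, nsmul_eq_mul, hA5]
      ring
    have := LinearMap.mem_ker.1 (hk hi)
    rw [hf] at this
    have p1 : (0 : ℝ) < k1 := by exact_mod_cast h2
    have p2 : (k1 : ℝ) < k := by exact_mod_cast h3
    split_ifs at this <;> linarith
  · rw [Pool.Agent.H16.Count.card_level X Xᶜ disjoint_compl_right k k1 h3.le, card_compl, hX,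
      Fintype.card_fin]

theorem result (n k : ℕ) (hk : 1 ≤ k) (_hkn : k ≤ n) :
    IsGreatest {m : ℕ | ∃ S : Finset (Finset (Fin n)),
        (∀ A ∈ S, A.card = k) ∧ UnitFree S ∧ S.card = m}
      ((range (n + 1) ×ˢ Ioo 0 k).sup
        (fun p => p.1.choose p.2 * (n - p.1).choose (k - p.2))) := by
  constructor
  · rcases (range (n + 1) ×ˢ Ioo 0 k).eq_empty_or_nonempty with h | h
    · rw [h]
      refine ⟨∅, by simp, fun i => ?_, rfl⟩
      simp
    · obtain ⟨p, hp, he⟩ := exists_mem_eq_sup _ h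
        (fun p => p.1.choose p.2 * (n - p.1).choose (k - p.2))
      simp only [mem_product, mem_range, mem_Ioo] at hp
      rw [he]
      exact lower n k p.1 p.2 (by omega) hp.2.1 hp.2.2
  · rintro m ⟨S, h1, h2, rfl⟩
    exact upper n k hk S h1 h2

end Pool.Agent.Results.MP_7e34bc_co.ExactWeight
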